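import Pool.Agent.Q148.FreeG.Free

/-!
# Factorisation through compact sets, and basic properties of the free topology
-/

open Filter Topology

namespace Pool.Agent.Q148.FreeG

variable {X : Type*} [TopologicalSpace X]

/-- Functoriality of parameters. -/
def Par.map {X Y : Type*} (r : X → Y) {k : ℕ} (z : Par X k) : Par Y k :=
  (fun j => (r (z.1 j).1, (z.1 j).2), r z.2.1, r z.2.2)

theorem continuous_letters {Y : Type*} [TopologicalSpace Y] {r : X → Y} (hr : Continuous r)
    {k : ℕ} : Continuous (fun (p : Fin k → X × Fin 3) (j : Fin k) => (r (p j).1, (p j).2)) := by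
  refine continuous_pi (fun j => ?_)
  exact (hr.comp (continuous_fst.comp (continuous_apply j))).prodMk
    (continuous_snd.comp (continuous_apply j))

theorem continuous_parMap {Y : Type*} [TopologicalSpace Y] {r : X → Y} (hr : Continuous r)
    {k : ℕ} : Continuous (Par.map r : Par X k → Par Y k) := by
  unfold Par.map
  exact ((continuous_letters hr).comp continuous_fst).prodMk
    ((hr.comp (continuous_fst.comp continuous_snd)).prodMk
      (hr.comp (continuous_snd.comp continuous_snd)))

theorem map_fac {X Y : Type*} (r : X → Y) (t : FreeGroup X × X × X) :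
    FreeGroup.map r (fac t) = fac (FreeGroup.map r t.1, r t.2.1, r t.2.2) := by
  unfold fac
  simp

theorem map_pvs {X Y : Type*} (r : X → Y) {k : ℕ} (z : Fin k → Par X k) :
    FreeGroup.map r (pvs z) = pvs (fun i => Par.map r (z i)) := by
  unfold pvs
  rw [map_list_prod, List.map_ofFn]
  congr 2
  funext i
  simp only [Function.comp, pv, map_fac, map_wd, Par.map]

/-- If `f` is continuous on compact sets and factors through a map `r` with
values in a compact set, then `f` is continuous. -/
theorem continuous_of_factor [Nonempty X] (f : FreeGroup X → ℝ)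
    (hf : ∀ K : Set (FreeGroup X), IsCompact K → ContinuousOn f K) (r : X → X) (hr : Continuous r)
    (K : Set X) (hK : IsCompact K) (hrK : ∀ x, r x ∈ K)
    (hfr : ∀ g, f g = f (FreeGroup.map r g)) : Continuous f := by
  apply continuous_of_local
  intro g k ε hε x
  have hKc : CompactSpace K := isCompact_iff_compactSpace.1 hK
  let ι : K → X := Subtype.val
  have hι : Continuous ι := continuous_subtype_val
  let ρ : X → K := fun x => ⟨r x, hrK x⟩
  have hρ : Continuous ρ := hr.subtype_mk _
  -- the auxiliary functions on a compact space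
  let Z := (Fin k → Par K k) × (Fin k → Par K k) × (Fin k → K × Fin 3)
  let s : (K × K) × Z → FreeGroup X := fun q =>
    FreeGroup.map r g * (pvs (fun i => Par.map ι (q.2.1 i)) *
      fac (wd (fun j => (ι (q.2.2.2 j).1, (q.2.2.2 j).2)), ι q.1.1, ι q.1.2) *
      pvs (fun i => Par.map ι (q.2.2.1 i)))
  let s' : (K × K) × Z → FreeGroup X := fun q =>
    FreeGroup.map r g * (pvs (fun i => Par.map ι (q.2.1 i)) * pvs (fun i => Par.map ι (q.2.2.1 i)))
  have h1 : Continuous (fun q : (K × K) × Z => pvs (fun i => Par.map ι (q.2.1 i))) := by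
    apply continuous_pvs.comp
    exact continuous_pi (fun i => (continuous_parMap hι).comp
      ((continuous_apply i).comp (continuous_fst.comp continuous_snd)))
  have h2 : Continuous (fun q : (K × K) × Z => pvs (fun i => Par.map ι (q.2.2.1 i))) := by
    apply continuous_pvs.comp
    exact continuous_pi (fun i => (continuous_parMap hι).comp
      ((continuous_apply i).comp (continuous_fst.comp (continuous_snd.comp continuous_snd))))
  have h3 : Continuous (fun q : (K × K) × Z =>
      fac (wd (fun j => (ι (q.2.2.2 j).1, (q.2.2.2 j).2)), ι q.1.1, ι q.1.2)) := by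
    apply continuous_fac.comp
    refine Continuous.prodMk ?_ (Continuous.prodMk ?_ ?_)
    · apply continuous_wd.comp
      exact (continuous_letters hι).comp (continuous_snd.comp (continuous_snd.comp continuous_snd))
    · exact hι.comp (continuous_fst.comp continuous_fst)
    · exact hι.comp (continuous_snd.comp continuous_fst)
  have hs : Continuous s := continuous_const.mul ((h1.mul h3).mul h2)
  have hs' : Continuous s' := continuous_const.mul (h1.mul h2)
  have hcomp : ∀ {Y : Type _} [TopologicalSpace Y] [CompactSpace Y] (σ : Y → FreeGroup X),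
      Continuous σ → Continuous (fun y => f (σ y)) := by
    intro Y _ _ σ hσ
    have h1 := hf (Set.range σ) (isCompact_range hσ)
    exact h1.comp_continuous hσ (fun y => ⟨y, rfl⟩)
  have hΦ : Continuous (fun q : (K × K) × Z => |f (s q) - f (s' q)|) :=
    ((hcomp s hs).sub (hcomp s' hs')).abs
  have hΨ : Continuous (fun q : (X × X) × Z =>
      |f (s ((ρ q.1.1, ρ q.1.2), q.2)) - f (s' ((ρ q.1.1, ρ q.1.2), q.2))|) := by
    refine hΦ.comp (Continuous.prodMk (Continuous.prodMk ?_ ?_) continuous_snd)
    · exact hρ.comp (continuous_fst.comp continuous_fst)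
    · exact hρ.comp (continuous_snd.comp continuous_fst)
  have hev : ∀ᶠ q : X × X in 𝓝 (x, x), ∀ z ∈ (Set.univ : Set Z),
      |f (s ((ρ q.1, ρ q.2), z)) - f (s' ((ρ q.1, ρ q.2), z))| < ε := by
    apply IsCompact.eventually_forall_of_forall_eventually isCompact_univ
    intro z _
    have h0 : |f (s ((ρ x, ρ x), z)) - f (s' ((ρ x, ρ x), z))| < ε := by
      have : s ((ρ x, ρ x), z) = s' ((ρ x, ρ x), z) := by simp [s, s', fac]
      rw [this]
      simpa using hε
    have := hΨ.tendsto ((x, x), z) (Iio_mem_nhds h0)
    exact this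
  filter_upwards [hev] with q hq z
  have h4 := hq (fun i => Par.map ρ (z.1 i), fun i => Par.map ρ (z.2.1 i),
    fun j => (ρ (z.2.2 j).1, (z.2.2 j).2)) trivial
  rw [hfr (g * (pvs z.1 * fac (wd z.2.2, q) * pvs z.2.1)), hfr (g * (pvs z.1 * pvs z.2.1))]
  have h5 : FreeGroup.map r (g * (pvs z.1 * pvs z.2.1)) =
      s' ((ρ q.1, ρ q.2), fun i => Par.map ρ (z.1 i), fun i => Par.map ρ (z.2.1 i),
        fun j => (ρ (z.2.2 j).1, (z.2.2 j).2)) := by
    simp only [map_mul, map_pvs, s']
    rfl
  have h6 : FreeGroup.map r (g * (pvs z.1 * fac (wd z.2.2, q) * pvs z.2.1)) =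
      s ((ρ q.1, ρ q.2), fun i => Par.map ρ (z.1 i), fun i => Par.map ρ (z.2.1 i),
        fun j => (ρ (z.2.2 j).1, (z.2.2 j).2)) := by
    simp only [map_mul, map_pvs, map_fac, map_wd, s]
    rfl
  rw [h5, h6]
  exact h4

/-! ### The free topology -/

theorem isInducing_of [CompletelyRegularSpace X] :
    IsInducing (FreeGroup.of : X → FreeGroup X) := by
  rw [isInducing_iff_nhds]
  intro x
  apply le_antisymm
  · exact (continuous_of.tendsto x).le_comap
  · intro U hU
    obtain ⟨V, hVU, hVo, hxV⟩ := mem_nhds_iff.1 hU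
    obtain ⟨φ, hφ, hφx, hφV⟩ := CompletelyRegularSpace.completely_regular x Vᶜ hVo.isClosed_compl
      (by simpa using hxV)
    rw [mem_comap]
    have hc : Continuous (fun y => Multiplicative.ofAdd (φ y : ℝ)) :=
      continuous_ofAdd.comp (continuous_subtype_val.comp hφ)
    refine ⟨{g | Multiplicative.toAdd
      (FreeGroup.lift (fun y => Multiplicative.ofAdd (φ y : ℝ)) g) < 1}, ?_, ?_⟩
    · apply (isOpen_Iio.preimage (continuous_toAdd.comp (continuous_lift hc))).mem_nhds
      show Multiplicative.toAdd
        (FreeGroup.lift (fun y => Multiplicative.ofAdd (φ y : ℝ)) (FreeGroup.of x)) < 1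
      rw [FreeGroup.lift_apply_of, hφx]
      simp
    · intro y hy
      apply hVU
      by_contra hyV
      have h1 : Multiplicative.toAdd
        (FreeGroup.lift (fun y => Multiplicative.ofAdd (φ y : ℝ)) (FreeGroup.of y)) < 1 := hy
      rw [FreeGroup.lift_apply_of, hφV hyV] at h1
      simp at h1

theorem t2_F [TotallySeparatedSpace X] : T2Space (FreeGroup X) := by
  classical
  apply IsTopologicalGroup.t2Space_of_one_sep
  intro g hg
  obtain ⟨n, p, rfl⟩ := exists_isLen g
  have hC : ∀ i j : Fin n, ∃ C : Set X, IsClopen C ∧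
      ((p i).1 ≠ (p j).1 → (p i).1 ∈ C ∧ (p j).1 ∉ C) := by
    intro i j
    by_cases h : (p i).1 = (p j).1
    · exact ⟨∅, isClopen_empty, fun h' => absurd h h'⟩
    · obtain ⟨U, hU, h1, h2⟩ := exists_isClopen_of_totally_separated h
      exact ⟨U, hU, fun _ => ⟨h1, h2⟩⟩
  choose C hC1 hC2 using hC
  let D := Fin n × Fin n → Bool
  let φ : X → D := fun x ij => decide (x ∈ C ij.1 ij.2)
  have hφ : IsLocallyConstant φ := by
    rw [IsLocallyConstant.iff_exists_open]
    intro x
    refine ⟨⋂ ij : Fin n × Fin n, if x ∈ C ij.1 ij.2 then C ij.1 ij.2 else (C ij.1 ij.2)ᶜ,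
      ?_, ?_, ?_⟩
    · apply isOpen_iInter_of_finite
      intro ij
      split_ifs
      · exact (hC1 _ _).isOpen
      · exact (hC1 _ _).compl.isOpen
    · rw [Set.mem_iInter]
      intro ij
      split_ifs with h
      · exact h
      · exact h
    · intro y hy
      rw [Set.mem_iInter] at hy
      funext ij
      have := hy ij
      simp only [φ]
      split_ifs at this with h
      · simp [h, this]
      · have h3 : y ∉ C ij.1 ij.2 := this
        simp [h, h3]
  have hinj : ∀ i j, φ (p i).1 = φ (p j).1 → (p i).1 = (p j).1 := by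
    intro i j h
    by_contra hne
    have h1 := congrFun h (i, j)
    have h2 := hC2 i j hne
    simp only [φ] at h1
    simp [h2.1, h2.2] at h1
  -- a left inverse on letters
  let ψ : D → X := fun d => if h : ∃ i, φ (p i).1 = d then (p h.choose).1 else
    if h' : Nonempty X then h'.some else (Classical.choice (by
      rcases n with _ | n
      · exact absurd (by simp [wd]) hg
      · exact ⟨(p 0).1⟩))
  have hψ : ∀ i, ψ (φ (p i).1) = (p i).1 := by
    intro i
    have h : ∃ j, φ (p j).1 = φ (p i).1 := ⟨i, rfl⟩
    simp only [ψ, dif_pos h]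
    exact hinj _ _ h.choose_spec
  have hne : FreeGroup.map φ (wd p) ≠ 1 := by
    intro h
    apply hg
    have h1 : FreeGroup.map ψ (FreeGroup.map φ (wd p)) = 1 := by rw [h, map_one]
    rw [map_wd, map_wd] at h1
    simp only [hψ] at h1
    exact h1
  let τ : TopologicalSpace (FreeGroup D) := ⊥
  have : DiscreteTopology (FreeGroup D) := ⟨rfl⟩
  have hcont : Continuous (FreeGroup.map φ) := by
    apply continuous_hom
    have h1 : IsLocallyConstant (fun x => FreeGroup.map φ (FreeGroup.of x)) := by
      have h2 : (fun x => FreeGroup.map φ (FreeGroup.of x)) = (fun d => FreeGroup.of d) ∘ φ := by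
        funext x
        simp
      rw [h2]
      exact hφ.comp _
    exact h1.continuous
  refine ⟨{h | FreeGroup.map φ h ≠ FreeGroup.map φ (wd p)}, ?_, ?_⟩
  · apply (isOpen_ne.preimage hcont).mem_nhds
    show FreeGroup.map φ 1 ≠ FreeGroup.map φ (wd p)
    rw [map_one]
    exact hne.symm
  · intro h
    exact h rfl

theorem isFreeTopology {X : Type} [TopologicalSpace X] [CompletelyRegularSpace X]
    [TotallySeparatedSpace X] : IsFreeTopology X (freeTop X) := by
  refine ⟨inferInstanceAs (IsTopologicalGroup (FreeGroup X)), t2_F, isInducing_of, ?_⟩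
  intro G _ _ _ φ hφ
  exact continuous_lift hφ

end Pool.Agent.Q148.FreeG
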