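import Mathlib

/-!
# The free topological group

We topologise `FreeGroup X` by the finest group topology for which the inclusion of generators is
continuous, and give a criterion for the continuity of real functions.
-/

open Filter Topology

namespace Pool.Agent.Q148.FreeG

/-- `X` is a `k_ℝ`-space: real functions which are continuous on all compact subsets are
continuous. -/
def IsKRSpace (X : Type*) [TopologicalSpace X] : Prop :=
  ∀ f : X → ℝ, (∀ K : Set X, IsCompact K → ContinuousOn f K) → Continuous f

/-- `t` is the topology of the free topological group `F(X)` (Markov): a Hausdorff group topology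
on the free group on the set `X`, inducing the given topology on `X`, and such that every
continuous map of `X` into a topological group extends to a continuous homomorphism. -/
def IsFreeTopology (X : Type) [TopologicalSpace X] (t : TopologicalSpace (FreeGroup X)) : Prop :=
  @IsTopologicalGroup (FreeGroup X) t _ ∧ @T2Space (FreeGroup X) t ∧
    @IsInducing X (FreeGroup X) _ t FreeGroup.of ∧
    ∀ (G : Type) [Group G] [TopologicalSpace G] [IsTopologicalGroup G] (φ : X → G),
      Continuous φ → @Continuous (FreeGroup X) G t _ (FreeGroup.lift φ)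

/-- The finest group topology for which `of` is continuous. -/
@[reducible] def freeTop (X : Type*) [TopologicalSpace X] : TopologicalSpace (FreeGroup X) :=
  sInf {t | @IsTopologicalGroup (FreeGroup X) t _ ∧ @Continuous X (FreeGroup X) _ t FreeGroup.of}

instance instTopF (X : Type*) [TopologicalSpace X] : TopologicalSpace (FreeGroup X) := freeTop X

section general

variable {X : Type*} [TopologicalSpace X]

instance : IsTopologicalGroup (FreeGroup X) := topologicalGroup_sInf (fun _ ht => ht.1)

theorem continuous_of : Continuous (FreeGroup.of : X → FreeGroup X) :=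
  continuous_sInf_rng.2 (fun _ ht => ht.2)

theorem le_of_group {t : TopologicalSpace (FreeGroup X)}
    (h1 : @IsTopologicalGroup (FreeGroup X) t _)
    (h2 : @Continuous X (FreeGroup X) _ t FreeGroup.of) : freeTop X ≤ t := sInf_le ⟨h1, h2⟩

/-- The universal property. -/
theorem continuous_hom {G : Type*} [TopologicalSpace G] [Group G]
    [IsTopologicalGroup G] (φ : FreeGroup X →* G) (h : Continuous (fun x => φ (FreeGroup.of x))) :
    Continuous φ := by
  have : freeTop X ≤ TopologicalSpace.induced φ inferInstance := by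
    apply le_of_group
    · exact topologicalGroup_induced φ
    · exact continuous_induced_rng.2 h
  exact continuous_iff_le_induced.2 this

theorem continuous_lift {G : Type*} [TopologicalSpace G] [Group G]
    [IsTopologicalGroup G] {f : X → G} (hf : Continuous f) : Continuous (FreeGroup.lift f) := by
  apply continuous_hom
  simpa using hf

/-! ### Letters and words -/

/-- The value of a letter. -/
def lv {X : Type*} (a : X × Fin 3) : FreeGroup X :=
  if a.2 = 0 then 1 else if a.2 = 1 then FreeGroup.of a.1 else (FreeGroup.of a.1)⁻¹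

theorem continuous_lv : Continuous (lv : X × Fin 3 → FreeGroup X) := by
  rw [continuous_prod_of_discrete_right]
  intro b
  unfold lv
  by_cases h0 : b = 0
  · simp only [h0, if_true]
    exact continuous_const
  · by_cases h1 : b = 1
    · simp only [h1, one_ne_zero, if_false, if_true]
      exact continuous_of
    · simp only [h0, h1, if_false]
      exact continuous_of.inv

/-- The value of a word. -/
def wd {X : Type*} {n : ℕ} (p : Fin n → X × Fin 3) : FreeGroup X :=
  (List.ofFn (fun i => lv (p i))).prod

theorem continuous_listprod {Y G : Type*} [TopologicalSpace Y] [TopologicalSpace G] [Monoid G]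
    [ContinuousMul G] {n : ℕ} (f : Fin n → Y → G) (hf : ∀ i, Continuous (f i)) :
    Continuous (fun y => (List.ofFn (fun i => f i y)).prod) := by
  induction n with
  | zero => simpa using continuous_const
  | succ n ih =>
    simp only [List.ofFn_succ, List.prod_cons]
    exact (hf 0).mul (ih (fun i => f i.succ) (fun i => hf i.succ))

theorem continuous_wd {n : ℕ} : Continuous (wd : (Fin n → X × Fin 3) → FreeGroup X) := by
  unfold wd
  exact continuous_listprod (Y := Fin n → X × Fin 3) (fun i p => lv (p i))
    (fun i => continuous_lv.comp (continuous_apply i))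

theorem map_lv {X Y : Type*} (r : X → Y) (a : X × Fin 3) :
    FreeGroup.map r (lv a) = lv (r a.1, a.2) := by
  unfold lv
  split_ifs <;> simp

theorem map_wd {X Y : Type*} (r : X → Y) {n : ℕ} (p : Fin n → X × Fin 3) :
    FreeGroup.map r (wd p) = wd (fun i => (r (p i).1, (p i).2)) := by
  unfold wd
  rw [map_list_prod, List.map_ofFn]
  congr 2
  funext i
  exact map_lv r (p i)

/-- `c` is the value of a word of length `n`. -/
def IsLen {X : Type*} (n : ℕ) (c : FreeGroup X) : Prop := ∃ p : Fin n → X × Fin 3, c = wd p

theorem isLen_one {X : Type*} : IsLen 0 (1 : FreeGroup X) := ⟨Fin.elim0, by simp [wd]⟩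

theorem IsLen.mul {X : Type*} {m n : ℕ} {c d : FreeGroup X} (hc : IsLen m c) (hd : IsLen n d) :
    IsLen (m + n) (c * d) := by
  obtain ⟨p, rfl⟩ := hc
  obtain ⟨q, rfl⟩ := hd
  refine ⟨Fin.append p q, ?_⟩
  unfold wd
  have : (fun i => lv (Fin.append p q i)) = Fin.append (fun i => lv (p i)) (fun i => lv (q i)) := by
    funext i
    refine Fin.addCases (fun i => ?_) (fun i => ?_) i <;> simp
  rw [this, List.ofFn_fin_append, List.prod_append]

theorem isLen_lv {X : Type*} (a : X × Fin 3) : IsLen 1 (lv a) := ⟨fun _ => a, by simp [wd]⟩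

theorem IsLen.mono {X : Type*} [Nonempty X] {m n : ℕ} {c : FreeGroup X} (hc : IsLen m c)
    (h : m ≤ n) : IsLen n c := by
  induction n, h using Nat.le_induction with
  | base => exact hc
  | succ n _ ih =>
    obtain ⟨x⟩ := ‹Nonempty X›
    have h2 := ih.mul (isLen_lv (x, 0))
    simpa [lv] using h2

theorem exists_isLen {X : Type*} (c : FreeGroup X) : ∃ n, IsLen n c := by
  induction c using FreeGroup.induction_on with
  | C1 => exact ⟨0, isLen_one⟩
  | of x => exact ⟨1, by simpa [lv] using isLen_lv (x, (1 : Fin 3))⟩
  | inv_of x _ => exact ⟨1, by simpa [lv] using isLen_lv (x, (2 : Fin 3))⟩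
  | mul x y hx hy =>
    obtain ⟨m, hm⟩ := hx
    obtain ⟨n, hn⟩ := hy
    exact ⟨m + n, hm.mul hn⟩

/-! ### Neighbourhoods of the identity -/

/-- The elementary factor `c x y⁻¹ c⁻¹`. -/
def fac {X : Type*} (t : FreeGroup X × X × X) : FreeGroup X :=
  t.1 * (FreeGroup.of t.2.1 * (FreeGroup.of t.2.2)⁻¹) * t.1⁻¹

/-- A list of elementary factors is admissible for `W`. -/
def Adm {X : Type*} (W : ℕ → Set (X × X)) (l : List (ℕ × FreeGroup X × X × X)) : Prop :=
  (l.map Prod.fst).Nodup ∧ ∀ t ∈ l, IsLen t.1 t.2.1 ∧ t.2.2 ∈ W t.1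

/-- The product of a list of factors. -/
def pr {X : Type*} (l : List (ℕ × FreeGroup X × X × X)) : FreeGroup X :=
  (l.map (fun t => fac t.2)).prod

/-- The set of all products of admissible lists. -/
def USet {X : Type*} (W : ℕ → Set (X × X)) : Set (FreeGroup X) :=
  {g | ∃ l, Adm W l ∧ g = pr l}

theorem USet_mono {X : Type*} {W W' : ℕ → Set (X × X)} (h : ∀ i, W' i ⊆ W i) :
    USet W' ⊆ USet W := by
  rintro g ⟨l, hl, rfl⟩
  exact ⟨l, ⟨hl.1, fun t ht => ⟨(hl.2 t ht).1, h _ (hl.2 t ht).2⟩⟩, rfl⟩

/-- Reindexing of admissible lists. -/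
theorem Adm.reindex {X : Type*} [Nonempty X] {W W' : ℕ → Set (X × X)} {σ : ℕ → ℕ}
    (hσ : Function.Injective σ) (hle : ∀ i, i ≤ σ i) (hW : ∀ i, W' i ⊆ W (σ i))
    {l : List (ℕ × FreeGroup X × X × X)} (hl : Adm W' l) :
    Adm W (l.map (fun t => (σ t.1, t.2))) := by
  constructor
  · rw [List.map_map]
    have : (Prod.fst ∘ fun t : ℕ × FreeGroup X × X × X => (σ t.1, t.2)) = σ ∘ Prod.fst := rfl
    rw [this, ← List.map_map]
    exact hl.1.map hσ
  · intro t ht
    obtain ⟨s, hs, rfl⟩ := List.mem_map.1 ht
    exact ⟨(hl.2 s hs).1.mono (hle _), hW _ (hl.2 s hs).2⟩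

theorem pr_reindex {X : Type*} (σ : ℕ → ℕ) (l : List (ℕ × FreeGroup X × X × X)) :
    pr (l.map (fun t => (σ t.1, t.2))) = pr l := by
  unfold pr
  rw [List.map_map]
  rfl

theorem pr_append {X : Type*} (l m : List (ℕ × FreeGroup X × X × X)) :
    pr (l ++ m) = pr l * pr m := by
  unfold pr
  rw [List.map_append, List.prod_append]

theorem USet_mul {X : Type*} [Nonempty X] {W W' : ℕ → Set (X × X)}
    (h1 : ∀ i, W' i ⊆ W (2 * i)) (h2 : ∀ i, W' i ⊆ W (2 * i + 1)) {a b : FreeGroup X}
    (ha : a ∈ USet W') (hb : b ∈ USet W') : a * b ∈ USet W := by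
  obtain ⟨l, hl, rfl⟩ := ha
  obtain ⟨m, hm, rfl⟩ := hb
  have hl' := hl.reindex (W := W) (σ := fun i => 2 * i) (fun a b h => by
    have : 2 * a = 2 * b := h
    omega) (fun i => by omega) h1
  have hm' := hm.reindex (W := W) (σ := fun i => 2 * i + 1) (fun a b h => by
    have : 2 * a + 1 = 2 * b + 1 := h
    omega) (fun i => by omega) h2
  refine ⟨l.map (fun t => (2 * t.1, t.2)) ++ m.map (fun t => (2 * t.1 + 1, t.2)), ⟨?_, ?_⟩, ?_⟩
  · rw [List.map_append]
    refine List.Nodup.append hl'.1 hm'.1 ?_
    intro i hi hi'
    obtain ⟨s, hs, rfl⟩ := List.mem_map.1 hi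
    obtain ⟨s', hs', h⟩ := List.mem_map.1 hi'
    obtain ⟨u, _, rfl⟩ := List.mem_map.1 hs
    obtain ⟨u', _, rfl⟩ := List.mem_map.1 hs'
    simp only at h
    omega
  · intro t ht
    rcases List.mem_append.1 ht with h | h
    · exact hl'.2 t h
    · exact hm'.2 t h
  · rw [pr_append, pr_reindex (fun i => 2 * i), pr_reindex (fun i => 2 * i + 1)]

theorem fac_inv {X : Type*} (t : FreeGroup X × X × X) : (fac t)⁻¹ = fac (t.1, t.2.2, t.2.1) := by
  unfold fac
  group

theorem fac_conj {X : Type*} (g : FreeGroup X) (t : FreeGroup X × X × X) :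
    g * fac t * g⁻¹ = fac (g * t.1, t.2) := by
  unfold fac
  group

theorem USet_inv {X : Type*} {W W' : ℕ → Set (X × X)}
    (h : ∀ i, W' i ⊆ Prod.swap ⁻¹' W i) {a : FreeGroup X} (ha : a ∈ USet W') : a⁻¹ ∈ USet W := by
  obtain ⟨l, hl, rfl⟩ := ha
  refine ⟨(l.map (fun t => (t.1, t.2.1, t.2.2.2, t.2.2.1))).reverse, ⟨?_, ?_⟩, ?_⟩
  · rw [List.map_reverse, List.nodup_reverse, List.map_map]
    exact hl.1
  · intro t ht
    rw [List.mem_reverse] at ht
    obtain ⟨s, hs, rfl⟩ := List.mem_map.1 ht
    exact ⟨(hl.2 s hs).1, h _ (hl.2 s hs).2⟩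
  · unfold pr
    rw [List.prod_inv_reverse, List.map_reverse, List.map_map, List.map_map]
    congr 2
    apply List.map_congr_left
    intro t _
    exact fac_inv t.2

theorem USet_conj {X : Type*} [Nonempty X] {W W' : ℕ → Set (X × X)} (g : FreeGroup X) {L : ℕ}
    (hL : IsLen L g) (h : ∀ i, W' i ⊆ W (L + i)) {a : FreeGroup X} (ha : a ∈ USet W') :
    g * a * g⁻¹ ∈ USet W := by
  obtain ⟨l, hl, rfl⟩ := ha
  refine ⟨l.map (fun t => (L + t.1, g * t.2.1, t.2.2)), ⟨?_, ?_⟩, ?_⟩
  · rw [List.map_map]
    have : (Prod.fst ∘ fun t : ℕ × FreeGroup X × X × X => (L + t.1, g * t.2.1, t.2.2)) =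
        (fun i => L + i) ∘ Prod.fst := rfl
    rw [this, ← List.map_map]
    exact hl.1.map (fun a b h => by
      have : L + a = L + b := h
      omega)
  · intro t ht
    obtain ⟨s, hs, rfl⟩ := List.mem_map.1 ht
    exact ⟨hL.mul (hl.2 s hs).1, h _ (hl.2 s hs).2⟩
  · unfold pr
    rw [List.map_map]
    clear hl
    induction l with
    | nil => simp
    | cons t l ih =>
      simp only [List.map_cons, List.prod_cons]
      rw [← ih]
      have h2 := fac_conj g t.2
      simp only [Function.comp]
      rw [← h2]
      group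

/-- The sets `USet W` form a neighbourhood base at `1` of a group topology. -/
@[reducible] def basis (X : Type*) [TopologicalSpace X] [Nonempty X] :
    GroupFilterBasis (FreeGroup X) where
  sets := {S | ∃ W : ℕ → Set (X × X), (∀ i, ∀ x, W i ∈ 𝓝 (x, x)) ∧ S = USet W}
  nonempty := ⟨_, fun _ => Set.univ, fun _ _ => univ_mem, rfl⟩
  inter_sets := by
    rintro _ _ ⟨W, hW, rfl⟩ ⟨W', hW', rfl⟩
    refine ⟨_, ⟨fun i => W i ∩ W' i, fun i x => inter_mem (hW i x) (hW' i x), rfl⟩, ?_⟩
    intro g hg
    exact ⟨USet_mono (fun i => Set.inter_subset_left) hg,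
      USet_mono (fun i => Set.inter_subset_right) hg⟩
  one' := by
    rintro _ ⟨W, hW, rfl⟩
    exact ⟨[], ⟨by simp, by simp⟩, by simp [pr]⟩
  mul' := by
    rintro _ ⟨W, hW, rfl⟩
    refine ⟨_, ⟨fun i => W (2 * i) ∩ W (2 * i + 1),
      fun i x => inter_mem (hW _ x) (hW _ x), rfl⟩, ?_⟩
    rintro _ ⟨a, ha, b, hb, rfl⟩
    exact USet_mul (W' := fun i => W (2 * i) ∩ W (2 * i + 1)) (fun i => Set.inter_subset_left)
      (fun i => Set.inter_subset_right) ha hb
  inv' := by
    rintro _ ⟨W, hW, rfl⟩
    refine ⟨_, ⟨fun i => Prod.swap ⁻¹' W i, fun i x => ?_, rfl⟩, ?_⟩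
    · exact (continuous_swap.tendsto (x, x)) (hW i x)
    · intro g hg
      exact USet_inv (fun i => subset_rfl) hg
  conj' := by
    rintro g _ ⟨W, hW, rfl⟩
    obtain ⟨L, hL⟩ := exists_isLen g
    refine ⟨_, ⟨fun i => W (L + i), fun i x => hW _ x, rfl⟩, ?_⟩
    intro a ha
    exact USet_conj g hL (fun i => subset_rfl) ha

theorem USet_mem_nhds [Nonempty X] {W : ℕ → Set (X × X)} (hW : ∀ i, ∀ x, W i ∈ 𝓝 (x, x)) :
    USet W ∈ 𝓝 (1 : FreeGroup X) := by
  have h1 : freeTop X ≤ (basis X).topology := by
    apply le_of_group (basis X).isTopologicalGroup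
    let _ := (basis X).topology
    have := (basis X).isTopologicalGroup
    rw [continuous_iff_continuousAt]
    intro x
    have h2 : Tendsto (fun y : X => FreeGroup.of y * (FreeGroup.of x)⁻¹) (𝓝 x)
        (𝓝 (1 : FreeGroup X)) := by
      rw [(basis X).nhds_one_hasBasis.tendsto_right_iff]
      rintro _ ⟨W, hW, rfl⟩
      have h3 : Tendsto (fun y : X => (y, x)) (𝓝 x) (𝓝 (x, x)) := by
        have : Continuous (fun y : X => (y, x)) := by fun_prop
        exact this.tendsto x
      filter_upwards [h3 (hW 0 x)] with y hy
      refine ⟨[(0, 1, y, x)], ⟨by simp, ?_⟩, ?_⟩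
      · intro t ht
        rw [List.mem_singleton] at ht
        subst ht
        exact ⟨isLen_one, hy⟩
      · simp [pr, fac]
    have h4 := h2.mul_const (FreeGroup.of x)
    rw [ContinuousAt]
    simpa using h4
  have h5 : USet W ∈ @nhds (FreeGroup X) (basis X).topology 1 :=
    (basis X).mem_nhds_one ⟨W, hW, rfl⟩
  exact nhds_mono h1 h5

/-! ### A criterion for continuity -/

/-- The parameters of a factor with conjugating word of length `k`. -/
abbrev Par (X : Type*) (k : ℕ) : Type _ := (Fin k → X × Fin 3) × X × X

/-- The value of a factor. -/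
def pv {X : Type*} {k : ℕ} (z : Par X k) : FreeGroup X := fac (wd z.1, z.2)

/-- The value of a tuple of factors. -/
def pvs {X : Type*} {k : ℕ} (z : Fin k → Par X k) : FreeGroup X :=
  (List.ofFn (fun i => pv (z i))).prod

theorem continuous_fac : Continuous (fac : FreeGroup X × X × X → FreeGroup X) := by
  unfold fac
  exact (continuous_fst.mul ((continuous_of.comp (continuous_fst.comp continuous_snd)).mul
    (continuous_of.comp (continuous_snd.comp continuous_snd)).inv)).mul continuous_fst.inv

theorem continuous_pv {k : ℕ} : Continuous (pv : Par X k → FreeGroup X) := by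
  have h1 : Continuous (fun z : Par X k => ((wd z.1, z.2) : FreeGroup X × X × X)) :=
    Continuous.prodMk (continuous_wd.comp continuous_fst) continuous_snd
  exact continuous_fac.comp h1

theorem continuous_pvs {k : ℕ} : Continuous (pvs : (Fin k → Par X k) → FreeGroup X) := by
  exact continuous_listprod (Y := Fin k → Par X k) (fun i z => pv (z i))
    (fun i => continuous_pv.comp (continuous_apply i))

/-- A product of at most `k` factors with short conjugating words is a value of `pvs`. -/
theorem exists_pvs {X : Type*} [Nonempty X] (k : ℕ) (l : List (ℕ × FreeGroup X × X × X))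
    (hl : l.length ≤ k) (h : ∀ t ∈ l, IsLen k t.2.1) : ∃ z : Fin k → Par X k, pr l = pvs z := by
  classical
  obtain ⟨x₀⟩ := ‹Nonempty X›
  have h' : ∀ t : {t // t ∈ l}, ∃ p : Fin k → X × Fin 3, t.1.2.1 = wd p := fun t => h t.1 t.2
  choose P hP using h'
  let e : Par X k := (fun _ => (x₀, 0), x₀, x₀)
  have he : pv e = 1 := by simp [pv, fac, e]
  let l' : List (Par X k) := l.attach.map (fun t => (P t, t.1.2.2)) ++ List.replicate (k - l.length) e
  have hlen : l'.length = k := by
    simp only [l', List.length_append, List.length_map, List.length_attach, List.length_replicate]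
    omega
  have hprod : (l'.map pv).prod = pr l := by
    simp only [l', List.map_append, List.prod_append, List.map_map, List.map_replicate,
      List.prod_replicate, he, one_pow, mul_one]
    unfold pr
    have : l.map (fun t => fac t.2) = l.attach.map (fun t => fac t.1.2) := by
      exact (List.attach_map_val (l := l) (f := fun t => fac t.2)).symm
    rw [this]
    congr 1
    apply List.map_congr_left
    intro t _
    simp only [Function.comp, pv]
    rw [← hP t]
  refine ⟨fun i => l'.get (Fin.cast hlen.symm i), ?_⟩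
  rw [← hprod]
  unfold pvs
  congr 1
  apply List.ext_get
  · simp [hlen]
  · intro n h1 h2
    simp

/-- A criterion for the continuity of a real function on the free topological group. -/
theorem continuous_of_local [Nonempty X] (f : FreeGroup X → ℝ)
    (h : ∀ (g : FreeGroup X) (k : ℕ) (ε : ℝ), 0 < ε → ∀ x : X, ∀ᶠ q : X × X in 𝓝 (x, x),
      ∀ z : (Fin k → Par X k) × (Fin k → Par X k) × (Fin k → X × Fin 3),
        |f (g * (pvs z.1 * fac (wd z.2.2, q) * pvs z.2.1)) - f (g * (pvs z.1 * pvs z.2.1))| < ε) :
    Continuous f := by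
  rw [continuous_iff_continuousAt]
  intro g
  rw [Metric.continuousAt_iff']
  intro ε hε
  let W : ℕ → Set (X × X) := fun k => {q |
      ∀ z : (Fin k → Par X k) × (Fin k → Par X k) × (Fin k → X × Fin 3),
        |f (g * (pvs z.1 * fac (wd z.2.2, q) * pvs z.2.1)) - f (g * (pvs z.1 * pvs z.2.1))| <
          ε / 2 / 2 ^ (k + 1)}
  have hW : ∀ i, ∀ x, W i ∈ 𝓝 (x, x) := fun i x => h g i _ (by positivity) x
  have hU : ∀ u ∈ USet W, |f (g * u) - f g| < ε := by
    have hk : ∀ k, ∀ l, Adm W l → (∀ t ∈ l, t.1 < k) →
        |f (g * pr l) - f g| ≤ ε / 2 * (1 - 1 / 2 ^ k) := by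
      intro k
      induction k with
      | zero =>
        intro l _ hl
        have : l = [] := by
          rw [List.eq_nil_iff_forall_not_mem]
          intro t ht
          exact absurd (hl t ht) (Nat.not_lt_zero _)
        subst this
        simp [pr]
      | succ k ih =>
        intro l hl hlk
        have h3 : ε / 2 * (1 - 1 / 2 ^ (k + 1)) = ε / 2 / 2 ^ (k + 1) +
            ε / 2 * (1 - 1 / 2 ^ k) := by
          field_simp
          ring
        have hpos : 0 < ε / 2 / 2 ^ (k + 1) := by positivity
        by_cases hk : ∃ t ∈ l, t.1 = k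
        · obtain ⟨t, ht, htk⟩ := hk
          obtain ⟨l₁, l₂, rfl⟩ := List.append_of_mem ht
          have hnd := hl.1
          rw [List.map_append, List.map_cons] at hnd
          have hnd2 := List.nodup_middle.1 hnd
          rw [List.nodup_cons, ← List.map_append] at hnd2
          have hlt : ∀ s ∈ l₁ ++ l₂, s.1 < k := by
            intro s hs
            have h1 : s.1 < k + 1 := by
              apply hlk
              rcases List.mem_append.1 hs with h | h
              · exact List.mem_append_left _ h
              · exact List.mem_append_right _ (List.mem_cons_of_mem _ h)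
            have h2 : s.1 ≠ k := by
              intro h
              apply hnd2.1
              rw [htk, ← h]
              exact List.mem_map_of_mem hs
            omega
          have hadm : Adm W (l₁ ++ l₂) := by
            refine ⟨hnd2.2, ?_⟩
            intro s hs
            apply hl.2
            rcases List.mem_append.1 hs with h | h
            · exact List.mem_append_left _ h
            · exact List.mem_append_right _ (List.mem_cons_of_mem _ h)
          have hlen : (l₁ ++ l₂).length ≤ k := by
            have h1 : ((l₁ ++ l₂).map Prod.fst).length ≤ k := by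
              have h2 : ((l₁ ++ l₂).map Prod.fst).toFinset ⊆ Finset.range k := by
                intro i hi
                rw [List.mem_toFinset] at hi
                obtain ⟨s, hs, rfl⟩ := List.mem_map.1 hi
                exact Finset.mem_range.2 (hlt s hs)
              have h3 := Finset.card_le_card h2
              rw [Finset.card_range, List.toFinset_card_of_nodup hnd2.2] at h3
              exact h3
            simpa using h1
          rw [List.length_append] at hlen
          have hLen : ∀ s ∈ l₁ ++ l₂, IsLen k s.2.1 := fun s hs =>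
            (hadm.2 s hs).1.mono (hlt s hs).le
          obtain ⟨z₁, hz₁⟩ := exists_pvs k l₁ (by omega)
            (fun s hs => hLen s (List.mem_append_left _ hs))
          obtain ⟨z₂, hz₂⟩ := exists_pvs k l₂ (by omega)
            (fun s hs => hLen s (List.mem_append_right _ hs))
          have ht2 := hl.2 t ht
          rw [htk] at ht2
          obtain ⟨⟨c, hc⟩, htW⟩ := ht2
          have h1 := htW (z₁, z₂, c)
          simp only at h1
          have e1 : pr (l₁ ++ t :: l₂) = pvs z₁ * fac (wd c, t.2.2) * pvs z₂ := by
            rw [pr_append, hz₁, ← hz₂, ← hc]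
            unfold pr
            rw [List.map_cons, List.prod_cons]
            group
          have e2 : pr (l₁ ++ l₂) = pvs z₁ * pvs z₂ := by rw [pr_append, hz₁, hz₂]
          rw [← e1, ← e2] at h1
          have h4 := ih _ hadm hlt
          rw [h3]
          exact (abs_sub_le _ _ _).trans (add_le_add h1.le h4)
        · push Not at hk
          have h4 := ih l hl (fun t ht => by
            have h1 := hlk t ht
            have h2 := hk t ht
            omega)
          rw [h3]
          linarith
    rintro _ ⟨l, hl, rfl⟩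
    obtain ⟨k, hkl⟩ : ∃ k, ∀ t ∈ l, t.1 < k := by
      refine ⟨(l.map Prod.fst).sum + 1, fun t ht => ?_⟩
      have := List.single_le_sum (l := l.map Prod.fst) (fun _ _ => Nat.zero_le _) t.1
        (List.mem_map_of_mem ht)
      omega
    refine (hk k l hl hkl).trans_lt ?_
    have : (0 : ℝ) < 1 / 2 ^ k := by positivity
    nlinarith
  have h1 : Tendsto (fun a : FreeGroup X => g⁻¹ * a) (𝓝 g) (𝓝 1) := by
    have : Continuous (fun a : FreeGroup X => g⁻¹ * a) := by fun_prop
    simpa using this.tendsto g
  filter_upwards [h1 (USet_mem_nhds hW)] with a ha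
  have := hU _ ha
  rw [Real.dist_eq]
  simpa using this

end general

end Pool.Agent.Q148.FreeG
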