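import Mathlib

/-!
# `σ`-directed families of truncations

Real functions of several variables which are continuous on compact sets depend only on the
truncations of their variables.
-/

open Filter Topology

namespace Pool.Agent.Q148.FreeG

/-- A `σ`-directed family of truncations `t i : Y → K i`, `K i` compact. -/
structure Skel {Y J : Type*} [TopologicalSpace Y] [Preorder J] (t : J → Y → Y)
    (K : J → Set Y) : Prop where
  compact : ∀ i, IsCompact (K i)
  mem : ∀ i y, t i y ∈ K i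
  mono : ∀ i j, i ≤ j → K i ⊆ K j
  cover : ∀ (i : J) (y : Y), ∃ c, i ≤ c ∧ y ∈ K c
  sigma : ∀ a : ℕ → J, ∃ b, ∀ n, a n ≤ b
  lim : ∀ (a β : ℕ → J) (y : ℕ → Y) (𝒰 : Ultrafilter ℕ) (z : Y), (∀ k, a k ≤ β k) →
    (∀ k, β k ≤ a (k + 1)) → (∀ k, y k ∈ K (a (k + 1))) → (𝒰 : Filter ℕ) ≤ atTop →
    Tendsto y 𝒰 (𝓝 z) → Tendsto (fun k => t (β k) (y k)) 𝒰 (𝓝 z)

variable {Y J : Type*} [TopologicalSpace Y] [Preorder J] {t : J → Y → Y} {K : J → Set Y}

theorem Skel.cover_fin (h : Skel t K) {n : ℕ} (i : J) (p : Fin n → Y) :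
    ∃ c, i ≤ c ∧ ∀ k, p k ∈ K c := by
  choose c hc1 hc2 using fun k => h.cover i (p k)
  obtain ⟨b, hb⟩ := h.sigma (fun m => if hm : m < n then c ⟨m, hm⟩ else i)
  refine ⟨b, ?_, ?_⟩
  · refine le_trans ?_ (hb 0)
    by_cases hn : 0 < n
    · rw [dif_pos hn]
      exact hc1 _
    · rw [dif_neg hn]
  · intro k
    have h1 := hb k
    rw [dif_pos k.2] at h1
    exact h.mono _ _ h1 (hc2 k)

theorem Skel.sigma' (h : Skel t K) {ι : Type*} [Countable ι] (a : ι → J) [Nonempty J] :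
    ∃ b, ∀ i, a i ≤ b := by
  rcases isEmpty_or_nonempty ι with hι | hι
  · obtain ⟨b⟩ := ‹Nonempty J›
    exact ⟨b, fun i => (hι.false i).elim⟩
  · obtain ⟨e, he⟩ := exists_surjective_nat ι
    obtain ⟨b, hb⟩ := h.sigma (fun n => a (e n))
    refine ⟨b, fun i => ?_⟩
    obtain ⟨n, rfl⟩ := he i
    exact hb n

theorem Skel.pattern (h : Skel t K) [hJ : Nonempty J] {n : ℕ} (φ : (Fin n → Y) → ℝ)
    (hφ : ∀ C : Set (Fin n → Y), IsCompact C → ContinuousOn φ C) :
    ∃ i, ∀ j, i ≤ j → ∀ p, φ (fun k => t j (p k)) = φ p := by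
  by_contra hcon
  push Not at hcon
  -- uniform gap
  have hgap : ∃ N : ℕ, ∀ i, ∃ j p, i ≤ j ∧
      1 / ((N : ℝ) + 1) < |φ p - φ (fun k => t j (p k))| := by
    by_contra hno
    push Not at hno
    choose a hno using hno
    obtain ⟨b, hab⟩ := h.sigma a
    obtain ⟨j, hbj, p, hne⟩ := hcon b
    have hpos : 0 < |φ p - φ (fun k => t j (p k))| :=
      abs_pos.2 (sub_ne_zero.2 hne.symm)
    obtain ⟨N, hN⟩ := exists_nat_one_div_lt hpos
    exact absurd (hno N j p ((hab N).trans hbj)) (not_le.2 hN)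
  obtain ⟨N, hN⟩ := hgap
  choose β p h1 h5 using hN
  choose c h2 h3 using fun i => h.cover_fin (β i) (p i)
  obtain ⟨i₀⟩ := hJ
  let a : ℕ → J := fun k => c^[k] i₀
  have hsucc : ∀ k, a (k + 1) = c (a k) := fun k => Function.iterate_succ_apply' _ _ _
  obtain ⟨b, hb⟩ := h.sigma a
  obtain ⟨𝒰, h𝒰⟩ := Ultrafilter.exists_le (atTop : Filter ℕ)
  have hmem : ∀ k i, p (a k) i ∈ K b := by
    intro k i
    have h6 := h3 (a k) i
    rw [← hsucc] at h6
    exact h.mono _ _ (hb _) h6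
  have hlim : ∀ i, ∃ z ∈ K b, Tendsto (fun k => p (a k) i) 𝒰 (𝓝 z) := by
    intro i
    obtain ⟨z, hz, hzlim⟩ := isCompact_iff_ultrafilter_le_nhds.1 (h.compact b)
      (𝒰.map (fun k => p (a k) i))
      (by
        rw [le_principal_iff, Ultrafilter.mem_coe, Ultrafilter.mem_map]
        have : (fun k => p (a k) i) ⁻¹' K b = Set.univ := by
          ext k
          simpa using hmem k i
        rw [this]
        exact Filter.univ_mem)
    exact ⟨z, hz, hzlim⟩
  choose z hz hz1 using hlim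
  have hz2 : ∀ i, Tendsto (fun k => t (β (a k)) (p (a k) i)) 𝒰 (𝓝 (z i)) := by
    intro i
    refine h.lim a (fun k => β (a k)) (fun k => p (a k) i) 𝒰 (z i) (fun k => h1 _) ?_ ?_ h𝒰
      (hz1 i)
    · intro k
      rw [hsucc]
      exact h2 _
    · intro k
      rw [hsucc]
      exact h3 (a k) i
  have hC : IsCompact (Set.pi Set.univ (fun _ : Fin n => K b)) :=
    isCompact_univ_pi (fun _ => h.compact b)
  have hcz := hφ _ hC z (fun i _ => hz i)
  have hA1 : Tendsto (fun k => φ (p (a k))) 𝒰 (𝓝 (φ z)) := by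
    apply hcz.tendsto.comp
    rw [tendsto_nhdsWithin_iff]
    exact ⟨tendsto_pi_nhds.2 hz1, Filter.Eventually.of_forall (fun k i _ => hmem k i)⟩
  have hA2 : Tendsto (fun k => φ (fun i => t (β (a k)) (p (a k) i))) 𝒰 (𝓝 (φ z)) := by
    apply hcz.tendsto.comp
    rw [tendsto_nhdsWithin_iff]
    refine ⟨tendsto_pi_nhds.2 hz2, Filter.Eventually.of_forall (fun k i _ => ?_)⟩
    have h9 : β (a k) ≤ b := by
      refine le_trans ?_ (hb (k + 1))
      rw [hsucc]
      exact h2 _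
    exact h.mono _ _ h9 (h.mem _ _)
  have hA3 := (hA1.sub hA2).abs
  rw [sub_self, abs_zero] at hA3
  have hpos : (0 : ℝ) < 1 / ((N : ℝ) + 1) := by positivity
  have hev : ∀ᶠ k in (𝒰 : Filter ℕ), |φ (p (a k)) -
      φ (fun i => t (β (a k)) (p (a k) i))| < 1 / ((N : ℝ) + 1) := hA3 (Iio_mem_nhds hpos)
  obtain ⟨k, hk⟩ := hev.exists
  exact absurd (h5 (a k)) (not_lt.2 (le_of_lt hk))

end Pool.Agent.Q148.FreeG
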