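import Pool.Agent.Q148.FreeKR.Space
import Pool.Agent.Q148.FreeG.Factor
import Pool.Agent.Q148.FreeG.Skel

/-!
# The free topological group of `([0, ω₁) × βℕ) ∪ ({ω₁} × ℕ)` is a `k_ℝ`-space
-/

open Filter Topology
open Pool.Agent.Q148.FreeKR (L X tr continuous_tr tr_tr tr_eq tr_fst_le L_bd L_bot_lt L_top_mem
  isCompact_le)

namespace Pool.Agent.Q148.FreeG.Old

/-- The points of `X` below `ω₁`. -/
abbrev Y : Type := {x : X // x.1.1 < ⊤}

/-- The indices of truncations. -/
abbrev J : Type := {α : L // α < ⊤}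

/-- Truncation. -/
noncomputable def tY (α : J) (y : Y) : Y :=
  ⟨tr α.1 y.1, lt_of_le_of_lt (tr_fst_le α.1 y.1) α.2⟩

instance : Nonempty J := ⟨⟨⊥, L_bot_lt⟩⟩

theorem skel : Skel tY (fun α : J => {y : Y | y.1.1.1 ≤ α.1}) where
  compact := by
    intro α
    rw [Subtype.isCompact_iff]
    have : Subtype.val '' {y : Y | y.1.1.1 ≤ α.1} = {x : X | x.1.1 ≤ α.1} := by
      ext x
      constructor
      · rintro ⟨y, hy, rfl⟩
        exact hy
      · intro hx
        exact ⟨⟨x, lt_of_le_of_lt hx α.2⟩, hx, rfl⟩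
    rw [this]
    exact isCompact_le α.1 α.2
  mem := fun α y => tr_fst_le α.1 y.1
  mono := by
    intro i j hij y hy
    exact le_trans (show y.1.1.1 ≤ i.1 from hy) hij
  cover := by
    intro α y
    exact ⟨⟨max α.1 y.1.1.1, max_lt α.2 y.2⟩,
      show α.1 ≤ max α.1 y.1.1.1 from le_max_left _ _,
      show y.1.1.1 ≤ max α.1 y.1.1.1 from le_max_right _ _⟩
  sigma := by
    intro a
    obtain ⟨b, hb, hb'⟩ := L_bd (fun n => (a n).1) (fun n => (a n).2)
    exact ⟨⟨b, hb⟩, fun n => (hb' n).le⟩
  lim := by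
    intro a β y 𝒰 z h1 h2 h3 h𝒰 hy
    have hmono : Monotone (fun k => (a k).1) :=
      monotone_nat_of_le_succ (fun k => (h1 k).trans (h2 k))
    let γ : L := ⨆ k, (a k).1
    have hlim : Tendsto (fun k => (a k).1) atTop (𝓝 γ) := tendsto_atTop_iSup hmono
    have hlim' : Tendsto (fun k => (a (k + 1)).1) atTop (𝓝 γ) :=
      hlim.comp (tendsto_add_atTop_nat 1)
    have hβlim : Tendsto (fun k => (β k).1) atTop (𝓝 γ) :=
      tendsto_of_tendsto_of_tendsto_of_le_of_le hlim hlim' h1 h2
    have hβ1 : Tendsto (fun k => (β k).1) 𝒰 (𝓝 γ) := hβlim.mono_left h𝒰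
    have hy1 : Tendsto (fun k => (y k).1) 𝒰 (𝓝 z.1) :=
      (continuous_subtype_val.tendsto z).comp hy
    have hz : z.1.1.1 ≤ γ := by
      have hy2 : Tendsto (fun k => (y k).1.1.1) 𝒰 (𝓝 z.1.1.1) :=
        ((continuous_fst.comp continuous_subtype_val).tendsto z.1).comp hy1
      refine le_of_tendsto hy2 (Filter.Eventually.of_forall (fun k => ?_))
      exact (h3 k).trans (le_iSup (fun k => (a k).1) (k + 1))
    rw [tendsto_subtype_rng]
    have h6 := continuous_tr.tendsto (γ, z.1)
    have h7 := h6.comp (hβ1.prodMk_nhds hy1)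
    rw [show tr (γ, z.1).1 (γ, z.1).2 = z.1 from tr_eq γ z.1 hz] at h7
    exact h7

/-- `f` factors through a truncation. -/
theorem factor (f : FreeGroup X → ℝ)
    (hf : ∀ K : Set (FreeGroup X), IsCompact K → ContinuousOn f K) :
    ∃ α, α < ⊤ ∧ ∀ g, f g = f (FreeGroup.map (tr α) g) := by
  -- all patterns
  have h1 : ∀ s : (Σ n : ℕ, Fin n → Fin 3), ∃ i : J, ∀ j, i ≤ j → ∀ p : Fin s.1 → Y,
      f (wd (fun k => ((tY j (p k)).1, s.2 k))) = f (wd (fun k => ((p k).1, s.2 k))) := by
    rintro ⟨n, ε⟩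
    have hc : Continuous (fun p : Fin n → Y => wd (fun k => ((p k).1, ε k))) := by
      apply continuous_wd.comp
      refine continuous_pi (fun k => Continuous.prodMk ?_ continuous_const)
      exact continuous_subtype_val.comp (continuous_apply k)
    exact skel.pattern (fun p : Fin n → Y => f (wd (fun k => ((p k).1, ε k)))) (by
      intro C hC
      exact (hf _ (hC.image hc)).comp hc.continuousOn (Set.mapsTo_image _ _))
  choose i hi using h1
  obtain ⟨b, hb⟩ := skel.sigma' i
  refine ⟨b.1, b.2, ?_⟩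
  intro g
  obtain ⟨n, q, rfl⟩ := exists_isLen g
  rw [map_wd]
  -- the path
  let path : L → FreeGroup X := fun a => wd (fun k => (tr a (q k).1, (q k).2))
  have hpath : Continuous path := by
    apply continuous_wd.comp
    refine continuous_pi (fun k => Continuous.prodMk ?_ continuous_const)
    exact continuous_tr.comp (continuous_id.prodMk continuous_const)
  have hfc : Continuous (fun a : L => f (path a)) := by
    have h2 := hf (Set.range path) (isCompact_range hpath)
    exact h2.comp_continuous hpath (fun a => ⟨a, rfl⟩)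
  have hcl : IsClosed {a : L | f (path a) = f (path b.1)} :=
    isClosed_eq hfc continuous_const
  have hsub : Set.Ico b.1 ⊤ ⊆ {a : L | f (path a) = f (path b.1)} := by
    intro a ha
    have h2 := hi ⟨n, fun k => (q k).2⟩ b (hb _)
      (fun k => ⟨tr a (q k).1, lt_of_le_of_lt (tr_fst_le _ _) ha.2⟩)
    simp only [tY] at h2
    show f (path a) = f (path b.1)
    rw [show path a = wd (fun k => (tr a (q k).1, (q k).2)) from rfl, ← h2]
    simp only [tr_tr _ _ ha.1]
    rfl
  have htop := closure_minimal hsub hcl (L_top_mem b.1 b.2)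
  have h3 : f (path ⊤) = f (path b.1) := htop
  have h4 : path ⊤ = wd q := by
    simp only [path]
    congr 1
    funext k
    rw [tr_eq ⊤ _ le_top]
  rw [h4] at h3
  exact h3

/-- `F(X)` is a `k_ℝ`-space. -/
theorem isKR : IsKRSpace (FreeGroup X) := by
  intro f hf
  obtain ⟨α, hα, hfα⟩ := factor f hf
  refine continuous_of_factor f hf (tr α) ?_ {x : X | x.1.1 ≤ α} (isCompact_le α hα)
    (fun x => tr_fst_le α x) hfα
  exact continuous_tr.comp (continuous_const.prodMk continuous_id)

end Pool.Agent.Q148.FreeG.Old
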